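import Pool.Agent.Lib.MP_5b0a7e_nt.Final

/-!
# From a presieve to a run of composite numbers

If residue classes modulo the primes `p ≤ (log x) / 10` leave at most `η log x` integers of
`(0, U]` uncovered, then there is a run of `U` consecutive composite numbers below `x`.
-/

namespace LPAP

open Finset

lemma mem_sp_one {w p : ℕ} : p ∈ sp w 1 ↔ p ≤ w ∧ p.Prime := by
  rw [mem_sp]
  constructor
  · rintro ⟨h1, h2, _⟩; exact ⟨h1, h2⟩
  · rintro ⟨h1, h2⟩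
    refine ⟨h1, h2, ?_⟩
    rw [Nat.dvd_one]
    exact h2.one_lt.ne'

/-- A class modulo the product of the primes `p ≤ w` realising the prescribed classes. -/
lemma exists_crt (w : ℕ) (r : ℕ → ℕ) : ∃ b₀ : ℕ, ∀ p : ℕ, p.Prime → p ≤ w → ∀ n : ℕ,
    n % p = r p → p ∣ n + b₀ := by
  have hs : ∀ i ∈ sp w 1, (fun p : ℕ => p) i ≠ 0 := fun i hi => (mem_sp_one.mp hi).2.ne_zero
  have pp : Set.Pairwise (sp w 1 : Set ℕ) (Function.onFun Nat.Coprime (fun p : ℕ => p)) := by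
    intro p hp q hq hpq
    exact (Nat.coprime_primes (mem_sp_one.mp hp).2 (mem_sp_one.mp hq).2).mpr hpq
  obtain ⟨b₀, hb₀⟩ := Nat.chineseRemainderOfFinset (fun p => p - r p % p) (fun p => p)
    (sp w 1) hs pp
  refine ⟨b₀, fun p hp hpw n hn => ?_⟩
  have h1 : b₀ ≡ p - r p % p [MOD p] := hb₀ p (mem_sp_one.mpr ⟨hpw, hp⟩)
  have h2 : n ≡ r p % p [MOD p] := by
    unfold Nat.ModEq
    rw [Nat.mod_mod, ← hn, Nat.mod_mod]
  have h3 : n + b₀ ≡ r p % p + (p - r p % p) [MOD p] := Nat.ModEq.add h2 h1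
  have h4 : r p % p + (p - r p % p) = p := by
    have := Nat.mod_lt (r p) hp.pos
    omega
  rw [h4] at h3
  exact (Nat.modEq_zero_iff_dvd).mp (h3.trans ((Nat.modEq_zero_iff_dvd).mpr (dvd_refl p)))

theorem composite_run : ∃ η : ℝ, 0 < η ∧ ∃ X₀ : ℝ, ∀ x : ℝ, X₀ ≤ x → ∀ U : ℕ,
    U ≤ ⌊Real.log x / 10⌋₊ ^ 2 → ∀ (r : ℕ → ℕ) (S : Finset ℕ), (∀ n ∈ S, n ≤ U) →
    (∀ n ∈ Finset.Ioc 0 U, n ∉ S → ∃ p : ℕ, p.Prime ∧ p ≤ ⌊Real.log x / 10⌋₊ ∧ n % p = r p) →
    (S.card : ℝ) ≤ η * (⌊Real.log x / 10⌋₊ : ℝ) →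
    ∃ b : ℕ, 2 ≤ b ∧ ((b + U : ℕ) : ℝ) ≤ x ∧ ∀ n ∈ Finset.Ioc 0 U, ¬ (b + n).Prime := by
  obtain ⟨A, hA, N₀, hmain⟩ := exists_all_hit
  obtain ⟨N₁, hN₁⟩ := eventually_numeric
  set c₁ : ℝ := min (1 / 10) (1 / (10 * A)) with hc₁
  have hc0 : 0 < c₁ := by rw [hc₁]; positivity
  have hc10 : c₁ ≤ 1 / 10 := min_le_left _ _
  have hcA : c₁ * A ≤ 1 / 10 := by
    have h1 : c₁ ≤ 1 / (10 * A) := min_le_right _ _
    calc c₁ * A ≤ 1 / (10 * A) * A := mul_le_mul_of_nonneg_right h1 hA.le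
      _ = 1 / 10 := by field_simp
  set L₀ : ℝ := max 1000 (max (4 / c₁ ^ 2) (((N₀ : ℝ) + N₁ + 10) * (2 / c₁))) with hL₀
  refine ⟨c₁, hc0, Real.exp L₀, ?_⟩
  intro x hx U hU r S hSU hScov hr
  have hx0 : 0 < x := lt_of_lt_of_le (Real.exp_pos _) hx
  set l := Real.log x with hl
  have hlL : L₀ ≤ l := by
    rw [hl, Real.le_log_iff_exp_le hx0]; exact hx
  have hl1 : 1000 ≤ l := le_trans (le_max_left _ _) hlL
  have hl3 : 4 / c₁ ^ 2 ≤ l :=
    le_trans (le_trans (le_max_left _ _) (le_max_right _ _)) hlL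
  have hl4 : ((N₀ : ℝ) + N₁ + 10) * (2 / c₁) ≤ l :=
    le_trans (le_trans (le_max_right _ _) (le_max_right _ _)) hlL
  have hl0 : 0 < l := by linarith
  have hexpl : Real.exp l = x := Real.exp_log hx0
  -- N
  set N := ⌊c₁ * l⌋₊ with hN
  have hNle : (N : ℝ) ≤ c₁ * l := Nat.floor_le (by positivity)
  have hNgt : c₁ * l < N + 1 := Nat.lt_floor_add_one _
  have hcx : ((N₀ : ℝ) + N₁ + 10) ≤ c₁ * l / 2 := by
    have h1 := mul_le_mul_of_nonneg_left hl4 (by positivity : 0 ≤ c₁ / 2)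
    have h2 : c₁ / 2 * (((N₀ : ℝ) + N₁ + 10) * (2 / c₁)) = (N₀ : ℝ) + N₁ + 10 := by
      field_simp
    rw [h2] at h1
    linarith
  have hN0' : (0 : ℝ) ≤ N₀ := Nat.cast_nonneg _
  have hN1' : (0 : ℝ) ≤ N₁ := Nat.cast_nonneg _
  have hNhalf : c₁ * l / 2 ≤ N := by linarith
  have hNN₀ : N₀ ≤ N := by
    have : (N₀ : ℝ) ≤ N := by linarith
    exact_mod_cast this
  have hNN₁ : N₁ ≤ N := by
    have : (N₁ : ℝ) ≤ N := by linarith
    exact_mod_cast this
  have hN10 : 10 ≤ N := by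
    have : (10 : ℝ) ≤ N := by linarith
    exact_mod_cast this
  have hNR : (10 : ℝ) ≤ N := by exact_mod_cast hN10
  obtain ⟨hlog10, hlog6⟩ := hN₁ N hNN₁
  have hxN2 : l ≤ (N : ℝ) ^ 2 := by
    have h1 : (c₁ * l / 2) ^ 2 ≤ (N : ℝ) ^ 2 := pow_le_pow_left₀ (by positivity) hNhalf 2
    refine le_trans ?_ h1
    have h2 : 4 ≤ l * c₁ ^ 2 := by
      rw [div_le_iff₀ (by positivity)] at hl3; exact hl3
    have h3 : (c₁ * l / 2) ^ 2 = l * (l * c₁ ^ 2) / 4 := by ring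
    rw [h3]
    nlinarith
  -- w
  set w := ⌊l / 10⌋₊ with hw
  have hwle : (w : ℝ) ≤ l / 10 := Nat.floor_le (by positivity)
  have hwN : w ≤ N ^ 2 := by
    have : (w : ℝ) ≤ (N : ℝ) ^ 2 := by linarith
    exact_mod_cast this
  have hN25 : N ^ 2 ≤ N ^ 5 := Nat.pow_le_pow_right (by omega) (by norm_num)
  set W := Wp w 1 with hW
  have hWpos : 0 < W := Wp_pos w 1
  have hWR : (0 : ℝ) < W := by exact_mod_cast hWpos
  have hWle : (W : ℝ) ≤ Real.exp (0.14 * l) := by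
    have h1 : (W : ℝ) ≤ (4 : ℝ) ^ w := by exact_mod_cast Wp_le w 1
    refine le_trans h1 ?_
    have h2 : (4 : ℝ) ^ w = Real.exp (w * Real.log 4) := by
      rw [Real.exp_nat_mul, Real.exp_log (by norm_num)]
    rw [h2]
    apply Real.exp_le_exp.mpr
    have h3 : Real.log 4 ≤ 1.3863 := by
      have h4 : Real.log 4 = 2 * Real.log 2 := by
        have : (4 : ℝ) = 2 ^ 2 := by norm_num
        rw [this, Real.log_pow]; norm_num
      rw [h4]
      have := Real.log_two_lt_d9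
      linarith
    calc (w : ℝ) * Real.log 4 ≤ (l / 10) * 1.3863 :=
          mul_le_mul hwle h3 (Real.log_nonneg (by norm_num)) (by positivity)
      _ ≤ 0.14 * l := by linarith
  -- Y
  set Y := (N ^ 5) ^ 2 ^ (Nat.log 8 N) with hY
  have hYexp : (Y : ℝ) ≤ Real.exp (l / 10) := by
    refine le_trans (log_Y_le hlog10 hlog6 (by omega)) ?_
    apply Real.exp_le_exp.mpr
    calc (N : ℝ) ≤ c₁ * l := hNle
      _ ≤ 1 / 10 * l := mul_le_mul_of_nonneg_right hc10 hl0.le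
      _ = l / 10 := by ring
  have hxbig : 100 * Real.exp (l / 10) ≤ x := by
    rw [← hexpl]
    have h1 : Real.exp l = Real.exp (9 * l / 10) * Real.exp (l / 10) := by
      rw [← Real.exp_add]; congr 1; ring
    have h2 : (100 : ℝ) ≤ Real.exp (9 * l / 10) := by
      have := Real.add_one_le_exp (9 * l / 10); linarith
    rw [h1]
    exact mul_le_mul_of_nonneg_right h2 (Real.exp_pos _).le
  have he10 : l / 10 + 1 ≤ Real.exp (l / 10) := Real.add_one_le_exp _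
  have hNY : N ^ 5 ≤ Y := by
    rw [hY]
    calc N ^ 5 = (N ^ 5) ^ 1 := (pow_one _).symm
      _ ≤ (N ^ 5) ^ 2 ^ (Nat.log 8 N) := Nat.pow_le_pow_right (by positivity) Nat.one_le_two_pow
  set X := ⌊x / 2⌋₊ with hX
  have hXle : (X : ℝ) ≤ x / 2 := Nat.floor_le (by positivity)
  have hXgt : x / 2 < X + 1 := Nat.lt_floor_add_one _
  have hYX : Y ≤ X := by
    have : (Y : ℝ) ≤ X := by linarith
    exact_mod_cast this
  -- the survivors
  have hScard : S.card ≤ N := by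
    have h1 : (S.card : ℝ) ≤ N := by
      calc (S.card : ℝ) ≤ c₁ * (w : ℝ) := hr
        _ ≤ c₁ * (l / 10) := mul_le_mul_of_nonneg_left hwle hc0.le
        _ ≤ c₁ * l / 2 := by
            have := mul_pos hc0 hl0
            linarith
        _ ≤ N := hNhalf
    exact_mod_cast h1
  have hUN4 : U ≤ N ^ 4 := by
    calc U ≤ w ^ 2 := hU
      _ ≤ (N ^ 2) ^ 2 := Nat.pow_le_pow_left hwN 2
      _ = N ^ 4 := by ring
  have hSlt : ∀ n ∈ S, n < N ^ 5 := by
    intro n hn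
    calc n ≤ U := hSU n hn
      _ ≤ N ^ 4 := hUN4
      _ < N ^ 5 := Nat.pow_lt_pow_right (by omega) (by norm_num)
  obtain ⟨b₀, hb₀⟩ := exists_crt w r
  have hineq : (2 : ℝ) ^ (1 : ℕ).primeFactors.card * Real.exp (A * N) <
      ((X : ℝ) - (Y : ℝ)) / W * ((1 : ℕ).totient / (1 : ℕ)) := by
    have h0 : (2 : ℝ) ^ (1 : ℕ).primeFactors.card = 1 := by simp
    have h00 : (((1 : ℕ).totient : ℝ) / ((1 : ℕ) : ℝ)) = 1 := by simp
    rw [h0, h00, one_mul, mul_one]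
    have h1 : Real.exp (A * N) ≤ Real.exp (l / 10) := by
      apply Real.exp_le_exp.mpr
      calc A * (N : ℝ) ≤ A * (c₁ * l) := mul_le_mul_of_nonneg_left hNle hA.le
        _ = (c₁ * A) * l := by ring
        _ ≤ 1 / 10 * l := mul_le_mul_of_nonneg_right hcA hl0.le
        _ = l / 10 := by ring
    have h2 : x / 4 ≤ (X : ℝ) - Y := by linarith
    have h3 : x / 4 / Real.exp (0.14 * l) ≤ ((X : ℝ) - Y) / W :=
      div_le_div₀ (by linarith) h2 hWR hWle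
    refine lt_of_lt_of_le (lt_of_le_of_lt h1 ?_) h3
    rw [lt_div_iff₀ (Real.exp_pos _), ← Real.exp_add, ← hexpl]
    have h4 : Real.exp l = Real.exp (l / 10 + 0.14 * l) * Real.exp (0.76 * l) := by
      rw [← Real.exp_add]; congr 1; ring
    have h5 : 5 ≤ Real.exp (0.76 * l) := by
      have := Real.add_one_le_exp (0.76 * l); linarith
    rw [h4]
    have := Real.exp_pos (l / 10 + 0.14 * l)
    nlinarith
  obtain ⟨b, hbY, hbX, hbb₀, _, hbS⟩ := hmain N hNN₀ 1 X one_ne_zero S hScard hSlt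
    (by simp) W hWpos (Wp_coprime w 1)
    (fun p hp hpW => le_trans (mem_sp.mp ((prime_dvd_Wp hp).mp hpW)).1
      (le_trans hwN hN25)) hYX hineq b₀
  rw [← hY] at hbY hbS
  have hwY : w ≤ Y := le_trans (le_trans hwN hN25) hNY
  have hN5 : 2 ≤ N ^ 5 := by
    calc 2 ≤ N := by omega
      _ = N ^ 1 := (pow_one N).symm
      _ ≤ N ^ 5 := Nat.pow_le_pow_right (by omega) (by norm_num)
  refine ⟨b, by omega, ?_, ?_⟩
  · have hUx : (U : ℝ) ≤ x / 2 := by
      have h1 : (U : ℝ) ≤ (w : ℝ) ^ 2 := by exact_mod_cast hU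
      have h2 : (w : ℝ) ^ 2 ≤ (l / 10) ^ 2 := pow_le_pow_left₀ (Nat.cast_nonneg _) hwle 2
      have h3 := Real.quadratic_le_exp_of_nonneg (by positivity : 0 ≤ l / 10)
      nlinarith
    have hbx : (b : ℝ) ≤ X := by exact_mod_cast hbX
    push_cast
    linarith
  · intro n hn hprime
    by_cases hnS : n ∈ S
    · obtain ⟨q, hq, hqY, hqd⟩ := hbS n hnS
      rw [one_mul, add_comm] at hqd
      have h1 := (Nat.prime_dvd_prime_iff_eq hq hprime).mp hqd
      omega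
    · obtain ⟨p, hp, hpw, hpn⟩ := hScov n hn hnS
      have h2 := hb₀ p hp hpw n hpn
      have hpW : p ∣ W := (prime_dvd_Wp hp).mpr (mem_sp_one.mpr ⟨hpw, hp⟩)
      have h3 : b ≡ b₀ [MOD p] := hbb₀.of_dvd hpW
      have h4 : n + b ≡ n + b₀ [MOD p] := Nat.ModEq.add_left _ h3
      have h5 : p ∣ b + n := by
        rw [add_comm]
        exact (Nat.modEq_zero_iff_dvd).mp (h4.trans ((Nat.modEq_zero_iff_dvd).mpr h2))
      have h6 := (Nat.prime_dvd_prime_iff_eq hp hprime).mp h5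
      omega

end LPAP
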